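import Mathlib

/-!
# Graph powers of groups: the maximal gap is always realised, exactly on twin-free graphs

`Γ` is a finite simple graph, `N[v]` is the closed neighbourhood of `v`, and for `g : G`
`pw Γ g v : V → G` is the element `g^v` (equal to `g` on `N[v]` and to `1` elsewhere).
-/

set_option autoImplicit false

namespace Pool.Agent.Results.MP_8f3806_al.TwinFree

open scoped Classical commutatorElement

/-- The closed neighbourhood `N[v]`. -/
def closedNbhd {V : Type} (Γ : SimpleGraph V) (v : V) : Set V := {w | w = v ∨ Γ.Adj v w}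

/-- The element `g^v` of `G^V`: `g` at the vertices of `N[v]`, `1` elsewhere. -/
noncomputable def pw {V : Type} (Γ : SimpleGraph V) {G : Type} [Group G] (g : G) (v : V) :
    V → G := fun w => if w ∈ closedNbhd Γ v then g else 1

/-- The graph power `G^Γ`, generated by all `g^v`. -/
def graphPower {V : Type} (Γ : SimpleGraph V) (G : Type) [Group G] : Subgroup (V → G) :=
  Subgroup.closure {x | ∃ (g : G) (v : V), x = pw Γ g v}

/-- `Comm_b(G, Γ)`, generated by all commutators `[g^v, h^w]`, `v = w` allowed. -/
def commB {V : Type} (Γ : SimpleGraph V) (G : Type) [Group G] : Subgroup (V → G) :=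
  Subgroup.closure {x | ∃ (g h : G) (v w : V), x = ⁅pw Γ g v, pw Γ h w⁆}

/-- `Γ` is `G`-RA: the full direct power `[G,G]^V` is contained in `G^Γ`. -/
def IsRA {V : Type} (Γ : SimpleGraph V) (G : Type) [Group G] : Prop :=
  ∀ x : V → G, (∀ v, x v ∈ commutator G) → x ∈ graphPower Γ G

/-- The RA matrix `C_Γ`: its rows are the indicator vectors of `N[u] ∩ N[v]`, for all `u, v`. -/
noncomputable def raMatrix {V : Type} (Γ : SimpleGraph V) : Matrix (V × V) V ℤ :=
  fun p w => if w ∈ closedNbhd Γ p.1 ∧ w ∈ closedNbhd Γ p.2 then 1 else 0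

/-- `d` is the sequence of elementary divisors of the integer matrix `A` (with at least as many
rows as columns): `d₁ ∣ d₂ ∣ ⋯ ∣ dₙ`, and `A` is equivalent over `ℤ` to the rectangular diagonal
matrix with the entries `dᵢ` (zeros are allowed, at the end). The diagonal is described by a
numbering `c` of the columns and a numbering `r` of (some of) the rows. -/
def IsElementaryDivisors {R C : Type} [Fintype R] [DecidableEq R] [Fintype C] [DecidableEq C]
    (A : Matrix R C ℤ) (d : Fin (Fintype.card C) → ℕ) : Prop :=
  (∀ i j, i ≤ j → d i ∣ d j) ∧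
    ∃ (P : Matrix R R ℤ) (Q : Matrix C C ℤ) (r : Fin (Fintype.card C) ↪ R)
      (c : Fin (Fintype.card C) ≃ C), IsUnit P.det ∧ IsUnit Q.det ∧
      ∀ i j, (P * A * Q) i j = if i = r (c.symm j) then (d (c.symm j) : ℤ) else 0

/-! ### The affine group of a field -/

/-- The affine group of a field: `⟨a, b⟩` is the map `x ↦ a x + b`. -/
@[ext] structure Aff (F : Type) [Field F] where
  /-- the linear part -/
  a : Fˣ
  /-- the translation part -/
  b : F

namespace Aff

variable {F : Type} [Field F]

instance : Mul (Aff F) := ⟨fun x y => ⟨x.a * y.a, x.b + x.a * y.b⟩⟩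
instance : One (Aff F) := ⟨⟨1, 0⟩⟩
instance : Inv (Aff F) := ⟨fun x => ⟨x.a⁻¹, -((x.a⁻¹ : Fˣ) * x.b)⟩⟩

@[simp] theorem mul_a (x y : Aff F) : (x * y).a = x.a * y.a := rfl
@[simp] theorem mul_b (x y : Aff F) : (x * y).b = x.b + x.a * y.b := rfl
@[simp] theorem one_a : (1 : Aff F).a = 1 := rfl
@[simp] theorem one_b : (1 : Aff F).b = 0 := rfl
@[simp] theorem inv_a (x : Aff F) : (x⁻¹).a = x.a⁻¹ := rfl
@[simp] theorem inv_b (x : Aff F) : (x⁻¹).b = -((x.a⁻¹ : Fˣ) * x.b) := rfl

instance : Group (Aff F) where
  mul_assoc x y z := by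
    ext
    · simp [mul_assoc]
    · simp only [mul_a, mul_b, Units.val_mul]; ring
  one_mul x := by ext <;> simp
  mul_one x := by ext <;> simp
  inv_mul_cancel x := by ext <;> simp

/-- translations -/
def T (b : F) : Aff F := ⟨1, b⟩

@[simp] theorem T_a (b : F) : (T b).a = 1 := rfl
@[simp] theorem T_b (b : F) : (T b).b = b := rfl

theorem T_add (b c : F) : T (b + c) = T b * T c := by ext <;> simp
theorem T_zero : T (0 : F) = 1 := by ext <;> simp
theorem T_neg (b : F) : T (-b) = (T b)⁻¹ := by ext <;> simp
theorem T_inj {b c : F} (h : T b = T c) : b = c := congrArg Aff.b h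

theorem comm_eq (x y : Aff F) :
    ⁅x, y⁆ = T ((1 - (y.a : F)) * x.b + ((x.a : F) - 1) * y.b) := by
  rw [commutatorElement_def]
  ext
  · simp [mul_comm]
  · simp only [mul_a, mul_b, inv_a, inv_b, T_b, Units.val_mul]
    have h1 : (x.a : F) * ((x.a⁻¹ : Fˣ) : F) = 1 := by simp
    have h2 : (y.a : F) * ((y.a⁻¹ : Fˣ) : F) = 1 := by simp
    linear_combination (-(y.a : F) * x.b - (y.a : F) * ((y.a⁻¹ : Fˣ) : F) * y.b) * h1
      - y.b * h2

/-- the linear part is a homomorphism -/
def lin : Aff F →* Fˣ where
  toFun := Aff.a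
  map_one' := rfl
  map_mul' _ _ := rfl

theorem mem_commutator {a : Fˣ} (ha : a ≠ 1) (x : Aff F) :
    x ∈ commutator (Aff F) ↔ x.a = 1 := by
  constructor
  · intro h
    have : commutator (Aff F) ≤ (lin (F := F)).ker := Abelianization.commutator_subset_ker _
    exact this h
  · intro h
    have hne : (a : F) - 1 ≠ 0 := by
      intro h0
      apply ha
      ext
      simpa using sub_eq_zero.mp h0
    have hx : x = ⁅(⟨a, 0⟩ : Aff F), T (x.b / ((a : F) - 1))⁆ := by
      rw [comm_eq]
      ext
      · simp [h]
      · simp [mul_div_cancel₀ _ hne]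
    rw [hx]
    exact Subgroup.commutator_mem_commutator (Subgroup.mem_top _) (Subgroup.mem_top _)

end Aff

section finiteness

instance (F : Type) [Field F] [Finite F] : Finite (Aff F) :=
  Finite.of_injective (fun x : Aff F => (x.a, x.b)) (fun x y h => by
    ext
    · simpa using congrArg (fun z => ((z.1 : Fˣ) : F)) h
    · simpa using congrArg Prod.snd h)

end finiteness


/-! ### Basic facts on the graph power -/

section basic

variable {V : Type} (Γ : SimpleGraph V) {G : Type} [Group G]

theorem mem_nbhd_comm {u v : V} : u ∈ closedNbhd Γ v ↔ v ∈ closedNbhd Γ u := by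
  unfold closedNbhd
  constructor
  · rintro (h | h)
    · exact Or.inl h.symm
    · exact Or.inr h.symm
  · rintro (h | h)
    · exact Or.inl h.symm
    · exact Or.inr h.symm

theorem pw_mem (g : G) (v : V) : pw Γ g v ∈ graphPower Γ G :=
  Subgroup.subset_closure ⟨g, v, rfl⟩

/-- twins have equal coordinates in the graph power -/
theorem eq_of_twins {u w : V} (h : closedNbhd Γ u = closedNbhd Γ w) {x : V → G}
    (hx : x ∈ graphPower Γ G) : x u = x w := by
  unfold graphPower at hx
  induction hx using Subgroup.closure_induction with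
  | mem x hx =>
    obtain ⟨g, v, rfl⟩ := hx
    unfold pw
    have h1 : u ∈ closedNbhd Γ v ↔ w ∈ closedNbhd Γ v := by
      rw [mem_nbhd_comm, h, mem_nbhd_comm]
    simp [h1]
  | one => rfl
  | mul x y _ _ hx hy => simp [hx, hy]
  | inv x _ hx => simp [hx]

theorem twinFree_of_isRA (hG : ¬ ∀ a b : G, a * b = b * a) (hRA : IsRA Γ G) (u w : V)
    (h : closedNbhd Γ u = closedNbhd Γ w) : u = w := by
  by_contra huw
  push Not at hG
  obtain ⟨a, b, hab⟩ := hG
  have hc : ⁅a, b⁆ ≠ 1 := fun h0 => hab (commutatorElement_eq_one_iff_mul_comm.mp h0)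
  have hmem : ⁅a, b⁆ ∈ commutator G :=
    Subgroup.commutator_mem_commutator (Subgroup.mem_top _) (Subgroup.mem_top _)
  have hx := hRA (Pi.mulSingle u ⁅a, b⁆) (fun v => by
    by_cases hv : v = u
    · subst hv; simpa using hmem
    · rw [Pi.mulSingle_eq_of_ne hv]; exact one_mem _)
  have := eq_of_twins Γ h hx
  rw [Pi.mulSingle_eq_same, Pi.mulSingle_eq_of_ne (Ne.symm huw)] at this
  exact hc this

end basic

/-! ### The affine group realises the maximal gap -/

section affine

variable {V : Type} (Γ : SimpleGraph V) {F : Type} [Field F]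

open Aff

/-- translations supported on a set of vertices -/
noncomputable def tr (S : Set V) (c : F) : V → Aff F := fun v => if v ∈ S then T c else 1

theorem comm_pw_tr (a : Fˣ) (S : Set V) (c : F) (v : V) :
    ⁅pw Γ (⟨a, 0⟩ : Aff F) v, tr S c⁆ = tr (S ∩ closedNbhd Γ v) (((a : F) - 1) * c) := by
  funext w
  have : (⁅pw Γ (⟨a, 0⟩ : Aff F) v, tr S c⁆ : V → Aff F) w =
    ⁅pw Γ (⟨a, 0⟩ : Aff F) v w, tr S c w⁆ := rfl
  rw [this, comm_eq]
  unfold tr pw
  by_cases h1 : w ∈ S <;> by_cases h2 : w ∈ closedNbhd Γ v <;>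
    simp [h1, h2, T_zero]

/-- a set of vertices on which all translations are in the graph power -/
def Good (F : Type) [Field F] (S : Set V) : Prop := ∀ c : F, tr S c ∈ graphPower Γ (Aff F)

theorem good_nbhd (v : V) : Good Γ F (closedNbhd Γ v) := fun c => pw_mem Γ (T c) v

theorem good_inter {a : Fˣ} (ha : a ≠ 1) {S : Set V} (hS : Good Γ F S) (v : V) :
    Good Γ F (S ∩ closedNbhd Γ v) := by
  intro c
  have hne : (a : F) - 1 ≠ 0 := by
    intro h0
    apply ha
    ext
    simpa using sub_eq_zero.mp h0
  have h := comm_pw_tr Γ a S (c / ((a : F) - 1)) v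
  rw [mul_div_cancel₀ _ hne] at h
  rw [← h, commutatorElement_def]
  exact mul_mem (mul_mem (mul_mem (pw_mem _ _ _) (hS _)) (inv_mem (pw_mem _ _ _)))
    (inv_mem (hS _))

theorem good_diff {a : Fˣ} (ha : a ≠ 1) {S : Set V} (hS : Good Γ F S) (v : V) :
    Good Γ F (S \ closedNbhd Γ v) := by
  intro c
  have : tr (S \ closedNbhd Γ v) c = tr S c * (tr (S ∩ closedNbhd Γ v) c)⁻¹ := by
    funext w
    unfold tr
    by_cases h1 : w ∈ S <;> by_cases h2 : w ∈ closedNbhd Γ v <;>
      simp [h1, h2]
  rw [this]
  exact mul_mem (hS c) (inv_mem (good_inter Γ ha hS v c))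

theorem good_singleton [Fintype V] {a : Fˣ} (ha : a ≠ 1)
    (htf : ∀ u v, closedNbhd Γ u = closedNbhd Γ v → u = v) (w : V) : Good Γ F {w} := by
  have key : ∀ U : Finset V, ∃ S : Set V, Good Γ F S ∧ w ∈ S ∧ ∀ u ∈ U, u ≠ w → u ∉ S := by
    intro U
    induction U using Finset.induction_on with
    | empty => exact ⟨closedNbhd Γ w, good_nbhd Γ w, Or.inl rfl, by simp⟩
    | insert u U _ ih =>
      obtain ⟨S, hS, hw, hU⟩ := ih
      by_cases huw : u = w
      · exact ⟨S, hS, hw, fun x hx hxw => by
          rcases Finset.mem_insert.mp hx with h | h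
          · exact absurd (h.trans huw) hxw
          · exact hU x h hxw⟩
      · have hne : closedNbhd Γ u ≠ closedNbhd Γ w := fun h => huw (htf _ _ h)
        have : ∃ v, (v ∈ closedNbhd Γ u ∧ v ∉ closedNbhd Γ w) ∨
            (v ∉ closedNbhd Γ u ∧ v ∈ closedNbhd Γ w) := by
          by_contra hcon
          push Not at hcon
          apply hne
          ext v
          constructor
          · exact (hcon v).1
          · intro hv
            by_contra h2
            exact (hcon v).2 h2 hv
        obtain ⟨v, ⟨h1, h2⟩ | ⟨h1, h2⟩⟩ := this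
        · refine ⟨S \ closedNbhd Γ v, good_diff Γ ha hS v,
            ⟨hw, fun h => h2 ((mem_nbhd_comm Γ).mp h)⟩, ?_⟩
          intro x hx hxw hxS
          rcases Finset.mem_insert.mp hx with h | h
          · subst h
            exact hxS.2 ((mem_nbhd_comm Γ).mp h1)
          · exact hU x h hxw hxS.1
        · refine ⟨S ∩ closedNbhd Γ v, good_inter Γ ha hS v,
            ⟨hw, (mem_nbhd_comm Γ).mp h2⟩, ?_⟩
          intro x hx hxw hxS
          rcases Finset.mem_insert.mp hx with h | h
          · subst h
            exact h1 ((mem_nbhd_comm Γ).mp hxS.2)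
          · exact hU x h hxw hxS.1
  obtain ⟨S, hS, hw, hU⟩ := key Finset.univ
  have : S = {w} := by
    ext u
    constructor
    · intro hu
      by_contra hne
      exact hU u (Finset.mem_univ _) hne hu
    · rintro rfl
      exact hw
  rwa [this] at hS

theorem isRA_aff [Fintype V] {a : Fˣ} (ha : a ≠ 1)
    (htf : ∀ u v, closedNbhd Γ u = closedNbhd Γ v → u = v) : IsRA Γ (Aff F) := by
  intro x hx
  apply Subgroup.pi_mem_of_mulSingle_mem
  intro w
  have h1 : (x w).a = 1 := (mem_commutator ha (x w)).mp (hx w)
  have h2 : Pi.mulSingle w (x w) = tr {w} (x w).b := by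
    funext v
    unfold tr
    by_cases hv : v = w
    · subst hv
      simp only [Pi.mulSingle_eq_same, Set.mem_singleton_iff, if_true]
      ext
      · simp [h1]
      · simp
    · simp [hv]
  rw [h2]
  exact good_singleton Γ ha htf w _

/-- the homomorphism `F^V → (Aff F)^V` -/
def iota : Multiplicative (V → F) →* (V → Aff F) where
  toFun y := fun v => T (Multiplicative.toAdd y v)
  map_one' := by
    funext v
    exact T_zero
  map_mul' x y := by
    funext v
    exact T_add _ _

theorem iota_injective : Function.Injective (iota (V := V) (F := F)) := by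
  intro x y h
  apply Multiplicative.toAdd.injective
  funext v
  exact T_inj (congrFun h v)

/-- the row space of the RA matrix over `F` -/
noncomputable def rowSpace (F : Type) [Field F] : Submodule F (V → F) :=
  Submodule.span F (Set.range ((raMatrix Γ).map (Int.cast : ℤ → F)).row)

theorem row_apply (v w u : V) : ((raMatrix Γ).map (Int.cast : ℤ → F)).row (v, w) u =
    if u ∈ closedNbhd Γ v ∧ u ∈ closedNbhd Γ w then 1 else 0 := by
  show ((raMatrix Γ (v, w) u : ℤ) : F) = _
  unfold raMatrix
  split_ifs <;> simp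

theorem comm_pw_pw (g h : Aff F) (v w : V) :
    ⁅pw Γ g v, pw Γ h w⁆ = iota (Multiplicative.ofAdd
      (((1 - (h.a : F)) * g.b + ((g.a : F) - 1) * h.b) •
        ((raMatrix Γ).map (Int.cast : ℤ → F)).row (v, w))) := by
  funext u
  have : (⁅pw Γ g v, pw Γ h w⁆ : V → Aff F) u = ⁅pw Γ g v u, pw Γ h w u⁆ := rfl
  rw [this, comm_eq]
  show _ = T _
  congr 1
  rw [toAdd_ofAdd, Pi.smul_apply, row_apply]
  unfold pw
  by_cases h1 : u ∈ closedNbhd Γ v <;> by_cases h2 : u ∈ closedNbhd Γ w <;>
    simp [h1, h2]

theorem commB_eq {a : Fˣ} (ha : a ≠ 1) :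
    commB Γ (Aff F) =
      (AddSubgroup.toSubgroup (rowSpace Γ F).toAddSubgroup).map (iota (V := V) (F := F)) := by
  have hne : (a : F) - 1 ≠ 0 := by
    intro h0
    apply ha
    ext
    simpa using sub_eq_zero.mp h0
  apply le_antisymm
  · unfold commB
    rw [Subgroup.closure_le]
    rintro x ⟨g, h, v, w, rfl⟩
    rw [comm_pw_pw]
    refine ⟨_, ?_, rfl⟩
    show _ ∈ (rowSpace Γ F)
    exact Submodule.smul_mem _ _ (Submodule.subset_span ⟨(v, w), rfl⟩)
  · rintro _ ⟨y, hy, rfl⟩
    have hy' : Multiplicative.toAdd y ∈ rowSpace Γ F := hy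
    have key : ∀ z : V → F, z ∈ rowSpace Γ F →
        iota (Multiplicative.ofAdd z) ∈ commB Γ (Aff F) := by
      intro z hz
      unfold rowSpace at hz
      induction hz using Submodule.closure_induction with
      | zero => exact one_mem _
      | add x y _ _ hx hy =>
        have : iota (Multiplicative.ofAdd (x + y)) =
          iota (Multiplicative.ofAdd x) * iota (Multiplicative.ofAdd y) :=
            map_mul (iota (V := V) (F := F)) _ _
        rw [this]
        exact mul_mem hx hy
      | smul_mem r x h =>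
        obtain ⟨⟨v, w⟩, rfl⟩ := h
        have h1 := comm_pw_pw Γ (⟨a, 0⟩ : Aff F) (T (r / ((a : F) - 1))) v w
        simp only [T_a, T_b, Units.val_one, sub_self, zero_mul, zero_add,
          mul_div_cancel₀ _ hne] at h1
        rw [← h1]
        exact Subgroup.subset_closure ⟨_, _, _, _, rfl⟩
    exact key _ hy'

/-- the commutator subgroup of the affine group -/
noncomputable def commEquiv {a : Fˣ} (ha : a ≠ 1) : Multiplicative F ≃* commutator (Aff F) where
  toFun c := ⟨T (Multiplicative.toAdd c), (mem_commutator ha _).mpr rfl⟩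
  invFun x := Multiplicative.ofAdd (x.1).b
  left_inv c := rfl
  right_inv x := by
    apply Subtype.ext
    ext
    · simp [(mem_commutator ha x.1).mp x.2]
    · simp
  map_mul' x y := by
    apply Subtype.ext
    exact T_add _ _

end affine

/-! ### The rank of the RA matrix over a field -/

section rank

variable {V : Type} [Fintype V]

theorem rank_map {F : Type} [Field F] {R C : Type} [Fintype R] [DecidableEq R] [Fintype C]
    [DecidableEq C] (A : Matrix R C ℤ) (d : Fin (Fintype.card C) → ℕ)
    (h : IsElementaryDivisors A d) :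
    (A.map (Int.cast : ℤ → F)).rank = Fintype.card {i // ((d i : ℕ) : F) ≠ 0} := by
  obtain ⟨-, P, Q, r, c, hP, hQ, hS⟩ := h
  let f : ℤ →+* F := Int.castRingHom F
  have hf : ∀ (m n : Type) (M : Matrix m n ℤ), M.map (Int.cast : ℤ → F) = M.map f :=
    fun _ _ _ => rfl
  have hP' : IsUnit (P.map f).det := by
    have := hP.map f
    rwa [RingHom.map_det] at this
  have hQ' : IsUnit (Q.map f).det := by
    have := hQ.map f
    rwa [RingHom.map_det] at this
  have h1 : ((P * A * Q).map f).rank = (A.map f).rank := by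
    rw [Matrix.map_mul, Matrix.map_mul, Matrix.rank_mul_eq_left_of_isUnit_det _ _ hQ',
      Matrix.rank_mul_eq_right_of_isUnit_det _ _ hP']
  rw [hf, ← h1]
  -- the rectangular diagonal matrix
  let E : Matrix R C F := fun i j => if i = r (c.symm j) then 1 else 0
  let D : Matrix C C F := Matrix.diagonal (fun j => ((d (c.symm j) : ℕ) : F))
  have hED : (P * A * Q).map f = E * D := by
    ext i j
    rw [Matrix.map_apply, hS, Matrix.mul_diagonal]
    by_cases hij : i = r (c.symm j) <;> simp [E, hij]
  have hEE : E.transpose * E = 1 := by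
    ext i j
    rw [Matrix.mul_apply]
    have hE : ∀ b, E.transpose i b * E b j =
        if b = r (c.symm i) then (if i = j then 1 else 0) else 0 := by
      intro b
      show (if b = r (c.symm i) then (1 : F) else 0) * (if b = r (c.symm j) then 1 else 0) = _
      by_cases hb : b = r (c.symm i)
      · subst hb
        by_cases hij : i = j <;> simp [hij]
      · simp [hb]
    simp only [hE]
    rw [Finset.sum_ite_eq' Finset.univ]
    by_cases hij : i = j
    · subst hij
      simp
    · simp [hij, Matrix.one_apply_ne hij]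
  have h2 : (E * D).rank = D.rank := by
    apply le_antisymm (Matrix.rank_mul_le_right _ _)
    calc D.rank = (E.transpose * (E * D)).rank := by
          rw [← Matrix.mul_assoc, hEE, Matrix.one_mul]
      _ ≤ (E * D).rank := Matrix.rank_mul_le_right _ _
  rw [hED, h2, Matrix.rank_diagonal]
  exact Fintype.card_congr (Equiv.subtypeEquiv c.symm (fun j => Iff.rfl))

theorem finrank_rowSpace (Γ : SimpleGraph V) {F : Type} [Field F]
    (d : Fin (Fintype.card V) → ℕ) (h : IsElementaryDivisors (raMatrix Γ) d) :
    Module.finrank F (rowSpace Γ F) = Fintype.card {i // ((d i : ℕ) : F) ≠ 0} := by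
  rw [← rank_map (raMatrix Γ) d h, Matrix.rank_eq_finrank_span_row]
  rfl

end rank

/-- **Main result.** Let `Γ` be a finite simple graph with `n` vertices, let `d₁ ∣ ⋯ ∣ dₙ` be the
elementary divisors of its RA matrix, and let `k` be the number of nontrivial ones (those that are
not `1`; zeros count as nontrivial). There is a finite nonabelian group `G` such that
`Comm_b(G, Γ) ≅ [G,G]^{n-k}` and `Γ` is `G`-RA if and only if no two distinct vertices of `Γ` have
the same closed neighbourhood. -/
theorem result : ∀ (V : Type) [Fintype V] (Γ : SimpleGraph V)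
    (d : Fin (Fintype.card V) → ℕ), IsElementaryDivisors (raMatrix Γ) d →
    ((∃ (G : Type) (_ : Group G), Finite G ∧ (¬ ∀ a b : G, a * b = b * a) ∧
        Nonempty (commB Γ G ≃*
          (Fin (Fintype.card V - Fintype.card {i // d i ≠ 1}) → commutator G)) ∧
        IsRA Γ G) ↔
      ∀ u v, closedNbhd Γ u = closedNbhd Γ v → u = v) := by
  intro V _ Γ d hd
  constructor
  · rintro ⟨G, _, -, hG, -, hRA⟩ u v huv
    exact twinFree_of_isRA Γ hG hRA u v huv
  · intro htf
    -- a prime dividing every nontrivial elementary divisor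
    have hp : ∃ p : ℕ, p.Prime ∧ ∀ i, d i ≠ 1 → p ∣ d i := by
      by_cases hex : ∃ i, d i ≠ 1
      · let S : Finset (Fin (Fintype.card V)) := Finset.univ.filter (fun i => d i ≠ 1)
        have hS : S.Nonempty := by
          obtain ⟨i, hi⟩ := hex
          exact ⟨i, by simp [S, hi]⟩
        have hmin := Finset.min'_mem S hS
        have hmin' : d (S.min' hS) ≠ 1 := by simpa [S] using hmin
        obtain ⟨p, hp, hpd⟩ := Nat.exists_prime_and_dvd hmin'
        refine ⟨p, hp, fun i hi => hpd.trans (hd.1 _ _ ?_)⟩
        exact Finset.min'_le S i (by simp [S, hi])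
      · push Not at hex
        exact ⟨2, Nat.prime_two, fun i hi => absurd (hex i) hi⟩
    obtain ⟨p, hp, hpd⟩ := hp
    have : Fact p.Prime := ⟨hp⟩
    let F := GaloisField p 2
    have : Finite F := inferInstanceAs (Finite (GaloisField p 2))
    have : Fintype F := Fintype.ofFinite F
    have hcard : Nat.card F = p ^ 2 := GaloisField.card p 2 (by norm_num)
    have : CharP F p := inferInstanceAs (CharP (GaloisField p 2) p)
    -- a unit different from 1
    have ha : ∃ a : Fˣ, a ≠ 1 := by
      by_contra hcon
      push Not at hcon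
      have h1 : Fintype.card Fˣ ≤ 1 := Fintype.card_le_one_iff.mpr
        (fun x y => (hcon x).trans (hcon y).symm)
      rw [Fintype.card_units, ← Nat.card_eq_fintype_card, hcard] at h1
      have := hp.two_le
      have : 2 ^ 2 ≤ p ^ 2 := Nat.pow_le_pow_left this 2
      omega
    obtain ⟨a, ha⟩ := ha
    have hnonab : ¬ ∀ x y : Aff F, x * y = y * x := by
      intro h
      have h1 := h ⟨a, 0⟩ (Aff.T 1)
      have h2 := congrArg Aff.b h1
      simp at h2
      exact ha h2
    refine ⟨Aff F, inferInstance, inferInstance, hnonab, ?_, isRA_aff Γ ha htf⟩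
    -- the isomorphism
    have hrank : Module.finrank F (rowSpace Γ F) =
        Fintype.card V - Fintype.card {i // d i ≠ 1} := by
      rw [finrank_rowSpace Γ d hd]
      have h1 : ∀ i, ((d i : ℕ) : F) ≠ 0 ↔ ¬ (d i ≠ 1) := by
        intro i
        rw [Ne, CharP.cast_eq_zero_iff F p]
        constructor
        · intro h h'
          exact h (hpd i h')
        · intro h h'
          push Not at h
          rw [h] at h'
          exact hp.one_lt.ne' (Nat.dvd_one.mp h')
      have h2 : Fintype.card {i // ((d i : ℕ) : F) ≠ 0} = Fintype.card {i // ¬ (d i ≠ 1)} :=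
        Fintype.card_congr (Equiv.subtypeEquivRight h1)
      rw [h2, Fintype.card_subtype_compl, Fintype.card_fin]
    have e1 : rowSpace Γ F ≃ₗ[F]
        (Fin (Fintype.card V - Fintype.card {i // d i ≠ 1}) → F) :=
      LinearEquiv.ofFinrankEq _ _ (by rw [hrank, Module.finrank_fin_fun])
    rw [commB_eq Γ ha]
    let K := AddSubgroup.toSubgroup (rowSpace Γ F).toAddSubgroup
    have e2 : K.map (iota (V := V) (F := F)) ≃* K :=
      (K.equivMapOfInjective _ iota_injective).symm
    have e3 : K ≃* Multiplicative (rowSpace Γ F) :=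
      { toFun := fun x => Multiplicative.ofAdd ⟨Multiplicative.toAdd x.1, x.2⟩
        invFun := fun x => ⟨Multiplicative.ofAdd (Multiplicative.toAdd x).1,
          (Multiplicative.toAdd x).2⟩
        left_inv := fun _ => rfl
        right_inv := fun _ => rfl
        map_mul' := fun _ _ => rfl }
    have e4 : Multiplicative (rowSpace Γ F) ≃*
        Multiplicative (Fin (Fintype.card V - Fintype.card {i // d i ≠ 1}) → F) :=
      e1.toAddEquiv.toMultiplicative
    have e5 : Multiplicative (Fin (Fintype.card V - Fintype.card {i // d i ≠ 1}) → F) ≃*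
        (Fin (Fintype.card V - Fintype.card {i // d i ≠ 1}) → Multiplicative F) :=
      { toFun := fun x i => Multiplicative.ofAdd (Multiplicative.toAdd x i)
        invFun := fun x => Multiplicative.ofAdd (fun i => Multiplicative.toAdd (x i))
        left_inv := fun _ => rfl
        right_inv := fun _ => rfl
        map_mul' := fun _ _ => rfl }
    have e6 : (Fin (Fintype.card V - Fintype.card {i // d i ≠ 1}) → Multiplicative F) ≃*
        (Fin (Fintype.card V - Fintype.card {i // d i ≠ 1}) → commutator (Aff F)) :=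
      MulEquiv.piCongrRight (fun _ => commEquiv ha)
    exact ⟨e2.trans (e3.trans (e4.trans (e5.trans e6)))⟩

end Pool.Agent.Results.MP_8f3806_al.TwinFree
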